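import Pool.Agent.TH133.Defs

/-!
# Homologically trivial cycles and rational varieties: definitions
-/

set_option autoImplicit false

open CategoryTheory AlgebraicGeometry

universe u v w

namespace Pool.Agent.Run7.H634.RV

open Pool.Agent.H914 Pool.Agent.H914.VarClass Pool.Agent.H914.VarClass.Obj Pool.Agent.W492.BB
  Pool.Agent.W550.Corr Pool.Agent.TH133

variable {k : Type u} [Field k] {𝒱 : VarClass k} (C : TheoryData.{u, v, 0} 𝒱 ℚ)

/-- The decomposition of the motive of the blow-up `V` of a projective space of dimension `dim X + c`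
along `X` (of codimension `c ≥ 2`): there are correspondences `Γ_j : h(X)(-j) → h(V)` and
`Γ'_j : h(V) → h(X)(-j)`, `1 ≤ j < c`, such that `Γ'_j ∘ Γ_j` is the identity, and the identity of `V` is the
sum of the `Γ_j ∘ Γ'_j` and of classes `a × b`. -/
structure IsBlowUp (X V : 𝒱.Obj) (c : ℕ) : Prop where
  two_le : 2 ≤ c
  dim : V.dim = X.dim + c
  motive : ∃ (Γ : ℕ → C.A (X.prod V)) (Γ' : ℕ → C.A (V.prod X)),
    (∀ j : ℕ, 1 ≤ j → j < c → C.Deg (X.dim + j) (Γ j) ∧ C.Deg (V.dim - j) (Γ' j) ∧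
      C.comp (Γ j) (Γ' j) = dg C X) ∧
    dg C V - ∑ j ∈ Finset.Ico 1 c, C.comp (Γ' j) (Γ j) ∈ AddSubgroup.closure
      {z | ∃ (i : ℤ) (a b : C.A V), C.Deg i a ∧ C.Deg (V.dim - i) b ∧ z = C.ext a b}

variable {C} {K : Type w} [Field K] (H : WeilTheoryData.{u, v, w} C K)

/-- `H^(2m-1)(X) = 0`. -/
def OddZero (X : 𝒱.Obj) (m : ℤ) : Prop := ∀ a : H.A X, H.Deg (2 * m - 1) a → a = 0

/-- The cycle class map is injective on `CH^m(X)` (with rational coefficients): homologically trivial
cycles of codimension `m` are torsion in the integral Chow group. -/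
def Inj (X : 𝒱.Obj) (m : ℕ) : Prop := ∀ z : C.A X, C.Deg m z → H.cl z = 0 → z = 0

/-- The statement of the question for `X` and `m`: if `H^(2m-1)(X) = 0` then all homologically trivial
cycles of codimension `m` are zero (rational coefficients). -/
def Q1 (X : 𝒱.Obj) (m : ℕ) : Prop := OddZero H X m → Inj H X m

/-- A part of the hard Lefschetz theorem: for some class `ξ ∈ H^2(X)` (a hyperplane section) the
multiplication `H^l(X) → H^(l+2)(X)` with `ξ` is injective for `l < dim X` and surjective for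
`l ≥ dim X - 1`. -/
def HasLefschetz (X : 𝒱.Obj) : Prop :=
  ∃ ξ : H.A X, H.Deg 2 ξ ∧
    (∀ (l : ℤ) (a : H.A X), l < X.dim → H.Deg l a → H.mul ξ a = 0 → a = 0) ∧
    ∀ (l : ℤ) (b : H.A X), X.dim ≤ l + 1 → H.Deg (l + 2) b → ∃ a : H.A X, H.Deg l a ∧ b = H.mul ξ a

/-- Cycles of small dimension are supported on smooth ample divisors: every class
`z ∈ CH^m(X)` with `m ≤ n = dim X` and `2 m ≥ n + 3` (so the dimension `i = n - m` of the cycles satisfies
`n ≥ 2 i + 3`) is `f_* z'` for a smooth ample divisor `f : Y ⟶ X` (the class `z` is represented by a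
combination of disjoint smooth subvarieties, by Kleiman's theorem on the smoothing of cycles, and
since `n > 2 i` a general divisor of high degree which contains them is smooth). By the weak Lefschetz
theorem `f_* : H^l(Y) → H^(l+2)(X)` is injective for `l > dim Y`. -/
def HasSections : Prop :=
  ∀ (X : 𝒱.Obj) (m : ℕ) (z : C.A X), C.Deg m z → m ≤ X.dim → X.dim + 3 ≤ 2 * m →
    ∃ (Y : 𝒱.Obj) (f : Y ⟶ X) (z' : C.A Y), Y.dim + 1 = X.dim ∧ C.Deg (m - 1) z' ∧
      C.down f z' = z ∧ ∀ (l : ℤ) (a : H.A Y), Y.dim < l → H.Deg l a → H.down f a = 0 → a = 0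

end Pool.Agent.Run7.H634.RV
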