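import Pool.Agent.Run7.h634.RV.Defs
import Pool.Agent.TH133.Ext
import Pool.Agent.TH133.Dual

/-!
# Homologically trivial cycles and rational varieties
-/

set_option autoImplicit false

open CategoryTheory AlgebraicGeometry

universe u v w

namespace Pool.Agent.Run7.H634.RV

open Pool.Agent.H914 Pool.Agent.H914.VarClass Pool.Agent.H914.VarClass.Obj Pool.Agent.W492.BB
  Pool.Agent.W550.Corr Pool.Agent.TH133

set_option linter.unusedSectionVars false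

variable {k : Type u} [Field k] {𝒱 : VarClass k} {C : TheoryData.{u, v, 0} 𝒱 ℚ}
  [hC : IsChowProj C] {K : Type w} [Field K] {H : WeilTheoryData.{u, v, w} C K}
  [hH : IsWeilProj H] {X Y V : 𝒱.Obj}

include hC hH

/-- A class `a × b` acts as zero on the cohomology in odd degrees. -/
lemma actH_ext_odd {i l : ℤ} {x : C.A V} (y : C.A X) (hx : x ∈ C.gr V i) {a : H.A V}
    (ha : a ∈ H.gr V l) (hl : 2 * i + l ≠ 2 * V.dim) : H.act (H.cl (C.ext x y)) a = 0 := by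
  have hb : H.cl x * a ∈ H.gr V (2 * i + l) := H.mul_mem (H.cl_mem hx) ha
  have h1 : H.push (snd V X) (H.pull (fst V X) (H.cl x * a)) = 0 := by
    rcases lt_or_gt_of_ne hl with h | h
    · have h2 := H.push_mem (snd V X) (H.pull_mem (fst V X) hb)
      rw [H.gr_neg X _ (by rw [dim_prod]; push_cast; omega)] at h2
      exact (Submodule.mem_bot _).1 h2
    · rw [gr_top (H := H) h] at hb
      rw [(Submodule.mem_bot _).1 hb, map_zero, map_zero]
  have h0 : H.cl (C.ext x y) = H.pull (fst V X) (H.cl x) * H.pull (snd V X) (H.cl y) := by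
    rw [TheoryData.ext, RingHom.map_mul, H.cl_pull, H.cl_pull]
  have h2 : H.pull (fst V X) (H.cl x) * H.pull (snd V X) (H.cl y) * H.pull (fst V X) a =
      H.pull (fst V X) (H.cl x * a) * H.pull (snd V X) (H.cl y) := by
    rw [mul_assoc, ← H.cl_pull (snd V X) y, H.cl_central, ← mul_assoc, map_mul]
  rw [TheoryData.act_apply, h0, h2, H.proj_right, h1, zero_mul]

lemma oddZero_blowUp {c : ℕ} (hV : IsBlowUp C X V c) {m : ℤ}
    (h : ∀ s : ℕ, 1 ≤ s → s < c → OddZero H X (m - s)) : OddZero H V m := by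
  intro a ha
  obtain ⟨Γ, Γ', h1, h2⟩ := hV.motive
  have hker : ∀ z ∈ AddSubgroup.closure
      {z | ∃ (i : ℤ) (a b : C.A V), C.Deg i a ∧ C.Deg (V.dim - i) b ∧ z = C.ext a b},
      H.act (H.cl z) a = 0 := by
    intro z hz
    induction hz using AddSubgroup.closure_induction with
    | mem z hz =>
      obtain ⟨i, x, y, hx, _, rfl⟩ := hz
      exact actH_ext_odd y hx ha (by omega)
    | zero => rw [map_zero, H.act_zero]
    | add x y _ _ hx hy => rw [map_add, H.act_add, hx, hy, add_zero]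
    | neg x _ hx =>
      have h3 : H.act (H.cl (0 - x)) a = 0 := by
        rw [RingHom.map_sub, H.act_sub, hx, map_zero, H.act_zero, sub_zero]
      rwa [zero_sub] at h3
  have h3 : H.act (H.cl (dg C V)) a =
      H.act (H.cl (dg C V - ∑ j ∈ Finset.Ico 1 c, C.comp (Γ' j) (Γ j))) a +
        H.act (H.cl (∑ j ∈ Finset.Ico 1 c, C.comp (Γ' j) (Γ j))) a := by
    rw [← H.act_add, ← RingHom.map_add, sub_add_cancel]
  rw [actH_dg, hker _ h2, zero_add, map_sum, act_sum] at h3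
  rw [h3]
  refine Finset.sum_eq_zero fun j hj => ?_
  rw [Finset.mem_Ico] at hj
  obtain ⟨_, hj2, _⟩ := h1 j hj.1 hj.2
  rw [actH_comp]
  have h4 : H.act (H.cl (Γ' j)) a = 0 := by
    apply h j hj.1 hj.2
    have h5 : Γ' j ∈ C.gr (V.prod X) (V.dim + (-(j : ℤ))) := by
      rwa [← sub_eq_add_neg]
    have := actH_mem H h5 ha
    rwa [show 2 * m - 1 + 2 * -(j : ℤ) = 2 * (m - j) - 1 by ring] at this
  rw [h4, H.act_map_zero]

/-- The step with a blow-up. -/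
lemma inj_of_blowUp {c : ℕ} (hV : IsBlowUp C X V c) {m j : ℕ} (hj : 1 ≤ j) (hjc : j < c)
    (h : ∀ s : ℕ, 1 ≤ s → s < c → OddZero H X ((m : ℤ) + j - s)) (hQ : Q1 H V (m + j)) :
    Inj H X m := by
  intro z hz h0
  have hO : OddZero H V ((m + j : ℕ) : ℤ) := oddZero_blowUp hV fun s hs hsc => by
    push_cast
    exact h s hs hsc
  obtain ⟨Γ, Γ', h1, -⟩ := hV.motive
  obtain ⟨h2, -, h3⟩ := h1 j hj hjc
  have h4 : C.act (Γ j) z ∈ C.gr V ((m + j : ℕ) : ℤ) := by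
    have := act_mem h2 hz
    rwa [← Nat.cast_add] at this
  have h5 : H.cl (C.act (Γ j) z) = 0 := by rw [cl_act, h0, H.act_map_zero]
  have h6 := hQ hO _ h4 h5
  rw [← act_dg C z, ← h3, C.act_comp, h6, C.act_map_zero]

lemma inj_of_lt {m : ℕ} (hm : X.dim < m) : Inj H X m := fun z hz _ =>
  hC.gr_top X m z hz (by exact_mod_cast hm)

lemma oddZero_down (hL : HasLefschetz H X) {m : ℤ} (hm : 2 * m - 1 ≤ X.dim) (h : OddZero H X m)
    (s : ℕ) : OddZero H X (m - s) := by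
  induction s with
  | zero => simpa using h
  | succ s ih =>
    intro a ha
    obtain ⟨ξ, hξ, h1, -⟩ := hL
    refine h1 (2 * (m - (s + 1 : ℕ)) - 1) a (by push_cast; omega) ha (ih _ ?_)
    have := H.mul_mem hξ ha
    rwa [show 2 + (2 * (m - ((s + 1 : ℕ) : ℤ)) - 1) = 2 * (m - s) - 1 by push_cast; ring] at this

lemma oddZero_up (hL : HasLefschetz H X) {m : ℤ} (hm : X.dim ≤ 2 * m - 1) (h : OddZero H X m)
    (s : ℕ) : OddZero H X (m + s) := by
  induction s with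
  | zero => simpa using h
  | succ s ih =>
    intro b hb
    obtain ⟨ξ, hξ, -, h1⟩ := hL
    obtain ⟨a, ha, rfl⟩ := h1 (2 * (m + s) - 1) b (by push_cast; omega)
      (by rwa [show 2 * (m + (s : ℤ)) - 1 + 2 = 2 * (m + (s + 1 : ℕ)) - 1 by push_cast; ring])
    rw [ih a ha]
    exact mul_zero _

/-- Side of small codimension. -/
lemma q1_low (hL : HasLefschetz H X) {c m : ℕ} (hV : IsBlowUp C X V c) (hm : 2 * m ≤ X.dim + 1)
    (hQ : Q1 H V (m + 1)) : Q1 H X m := by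
  intro h
  have h2 := hV.two_le
  refine inj_of_blowUp hV le_rfl (by omega) (fun s hs hsc => ?_) hQ
  have := oddZero_down hL (by omega) h (s - 1)
  rwa [show (m : ℤ) - ((s - 1 : ℕ) : ℤ) = m + (1 : ℕ) - s by rw [Nat.cast_sub hs]; push_cast; ring]
    at this

/-- Side of small dimension. -/
lemma q1_high (hL : HasLefschetz H X) {c m : ℕ} (hV : IsBlowUp C X V c) (hm : X.dim + 1 ≤ 2 * m)
    (hQ : Q1 H V (m + (c - 1))) : Q1 H X m := by
  intro h
  have h2 := hV.two_le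
  refine inj_of_blowUp hV (by omega) (by omega) (fun s hs hsc => ?_) hQ
  have := oddZero_up hL (by omega) h (c - 1 - s)
  rwa [show (m : ℤ) + ((c - 1 - s : ℕ) : ℤ) = m + ((c - 1 : ℕ) : ℤ) - s by
    rw [Nat.cast_sub (by omega)]; ring] at this

/-- Hyperplane sections through cycles of small dimension. -/
lemma q1_sections (hS : HasSections H) (i : ℕ)
    (hQ : ∀ X : 𝒱.Obj, X.dim = 2 * i + 2 → Q1 H X (i + 2)) :
    ∀ (t : ℕ) (X : 𝒱.Obj) (m : ℕ), m + i = X.dim → X.dim + 2 + t = 2 * m → Q1 H X m := by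
  intro t
  induction t with
  | zero =>
    intro X m hi hm
    obtain rfl : m = i + 2 := by omega
    exact hQ X (by omega)
  | succ t ih =>
    intro X m hi hm h z hz h0
    obtain ⟨Y, f, z', hY, hz', rfl, hf⟩ := hS X m z hz (by omega) (by omega)
    obtain ⟨l, rfl⟩ : ∃ l, m = l + 1 := ⟨m - 1, by omega⟩
    have hz2 : z' ∈ C.gr Y ((l : ℕ) : ℤ) := by
      have h1 : C.Deg (((l + 1 : ℕ) : ℤ) - 1) z' := hz'
      rwa [show ((l + 1 : ℕ) : ℤ) - 1 = l by push_cast; ring] at h1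
    have h1 : OddZero H Y l := by
      intro a ha
      refine hf (2 * l - 1) a (by omega) ha (h _ ?_)
      have := H.push_mem f ha
      rwa [show 2 * (l : ℤ) - 1 + 2 * ((X.dim : ℤ) - Y.dim) = 2 * ((l + 1 : ℕ) : ℤ) - 1 by
        rw [← hY]; push_cast; ring] at this
    have h2 : H.cl z' = 0 := by
      refine hf (2 * l) _ (by omega) (H.cl_mem hz2) ?_
      have h3 : H.cl (C.push f z') = 0 := h0
      rwa [H.cl_push] at h3
    have h3 := ih Y l (by omega) (by omega) h1 z' hz2 h2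
    rw [h3]
    exact map_zero _

lemma q1_sections' (hS : HasSections H) (i : ℕ)
    (hQ : ∀ X : 𝒱.Obj, X.dim = 2 * i + 2 → Q1 H X (i + 2)) (X : 𝒱.Obj) (m : ℕ)
    (hi : m + i = X.dim) (hm : X.dim + 2 ≤ 2 * m) : Q1 H X m := by
  obtain ⟨t, ht⟩ := Nat.exists_eq_add_of_le hm
  exact q1_sections hS i hQ t X m hi ht.symm

variable {𝓡 : 𝒱.Obj → Prop}

lemma low (hL : ∀ X : 𝒱.Obj, HasLefschetz H X)
    (h𝓡 : ∀ (X : 𝒱.Obj) (N : ℕ), ∃ (V : 𝒱.Obj) (c : ℕ), N ≤ c ∧ 𝓡 V ∧ IsBlowUp C X V c)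
    (m M : ℕ) (hQ : ∀ V : 𝒱.Obj, 𝓡 V → M ≤ V.dim → Q1 H V (m + 1)) (X : 𝒱.Obj)
    (hm : 2 * m ≤ X.dim + 1) : Q1 H X m := by
  obtain ⟨V, c, hc, hV, hb⟩ := h𝓡 X M
  exact q1_low (hL X) hb hm (hQ V hV (by rw [hb.dim]; omega))

lemma high (hL : ∀ X : 𝒱.Obj, HasLefschetz H X)
    (h𝓡 : ∀ (X : 𝒱.Obj) (N : ℕ), ∃ (V : 𝒱.Obj) (c : ℕ), N ≤ c ∧ 𝓡 V ∧ IsBlowUp C X V c)
    (i M : ℕ) (hQ : ∀ (V : 𝒱.Obj) (m : ℕ), 𝓡 V → M ≤ V.dim → m + (i + 1) = V.dim → Q1 H V m)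
    (X : 𝒱.Obj) (m : ℕ) (hi : m + i = X.dim) (hm : X.dim + 1 ≤ 2 * m) : Q1 H X m := by
  obtain ⟨V, c, hc, hV, hb⟩ := h𝓡 X M
  have h2 := hb.two_le
  exact q1_high (hL X) hb hm (hQ V _ hV (by rw [hb.dim]; omega) (by rw [hb.dim]; omega))

lemma middle (hL : ∀ X : 𝒱.Obj, HasLefschetz H X) (hS : HasSections H)
    (h𝓡 : ∀ (X : 𝒱.Obj) (N : ℕ), ∃ (V : 𝒱.Obj) (c : ℕ), N ≤ c ∧ 𝓡 V ∧ IsBlowUp C X V c)
    (i : ℕ) (hQ : ∀ X : 𝒱.Obj, X.dim = 2 * i + 4 → Q1 H X (i + 3)) (X : 𝒱.Obj)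
    (hX : X.dim = 2 * i + 1) : Q1 H X (i + 1) := by
  obtain ⟨V, c, hc, hV, hb⟩ := h𝓡 X 3
  have h2 := hb.two_le
  refine q1_high (hL X) hb (by omega) ?_
  exact q1_sections' hS (i + 1) (fun Y hY => hQ Y (by omega)) V _ (by rw [hb.dim]; omega)
    (by rw [hb.dim]; omega)

/-- **The question for two extreme families.** -/
theorem main (hL : ∀ X : 𝒱.Obj, HasLefschetz H X) (hS : HasSections H)
    (h𝓡 : ∀ (X : 𝒱.Obj) (N : ℕ), ∃ (V : 𝒱.Obj) (c : ℕ), N ≤ c ∧ 𝓡 V ∧ IsBlowUp C X V c)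
    (f : ℕ → ℕ) :
    (∀ (X : 𝒱.Obj) (m : ℕ), 2 ≤ m → Q1 H X m) ↔
      (∀ (i : ℕ) (X : 𝒱.Obj), X.dim = 2 * i + 2 → Q1 H X (i + 2)) ∧
        ∀ (m : ℕ) (V : 𝒱.Obj), 3 ≤ m → 𝓡 V → f m ≤ V.dim → Q1 H V m := by
  refine ⟨fun h => ⟨fun i X _ => h X _ (by omega), fun m V hm _ _ => h V m (by omega)⟩, ?_⟩
  rintro ⟨h1, h2⟩ X m hm
  by_cases hmd : m ≤ X.dim
  · by_cases hlow : 2 * m ≤ X.dim + 1
    · exact low hL h𝓡 m (f (m + 1)) (fun V hV hd => h2 (m + 1) V (by omega) hV hd) X hlow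
    · exact q1_sections' hS (X.dim - m) (h1 _) X m (by omega) (by omega)
  · exact fun _ => inj_of_lt (by omega)

end Pool.Agent.Run7.H634.RV
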