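import Pool.Agent.Run7.h634.RV.HypDefs
import Pool.Agent.Run7.h634.RV.Main
import Pool.Agent.Run7.h634.HC.Pow

/-!
# Homologically trivial cycles on hypersurfaces
-/

set_option autoImplicit false

open CategoryTheory AlgebraicGeometry

universe u v w

namespace Pool.Agent.Run7.H634.RV

open Pool.Agent.H914 Pool.Agent.H914.VarClass Pool.Agent.H914.VarClass.Obj Pool.Agent.W492.BB
  Pool.Agent.W550.Corr Pool.Agent.TH133 Pool.Agent.Run7.H634.HC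

set_option linter.unusedSectionVars false

variable {k : Type u} [Field k] {𝒱 : VarClass k} {C : TheoryData.{u, v, 0} 𝒱 ℚ}
  [hC : IsChowProj C] {K : Type w} [Field K] {H : WeilTheoryData.{u, v, w} C K}
  [hH : IsWeilProj H] {X Y Z J P : 𝒱.Obj} {d : ℕ} {h : C.A X} {h' : C.A Z}
  {𝓗 : ∀ X : 𝒱.Obj, C.A X → Prop}

include hC hH

lemma cl_smul_zero {x : C.A X} (hx : H.cl x = 0) (q : ℚ) : H.cl (q • x) = 0 := by
  rw [Algebra.smul_def, RingHom.map_mul, hx, mul_zero]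

variable (H) in
lemma eq_zero_of_cl {q : ℚ} (hq : H.cl (q • (1 : C.A X)) = 0) : q = 0 := by
  by_contra h0
  have h1 := cl_smul_zero hq q⁻¹
  rw [smul_smul, inv_mul_cancel₀ h0, one_smul, map_one] at h1
  exact hH.one_ne_zero X h1

/-- Homologically trivial classes are primitive. -/
lemma prim_of_cl (hh : h ∈ C.gr X 1) {a : C.A X} {m : ℕ} (ha : a ∈ C.gr X m) (h0 : H.cl a = 0) :
    Prim h a := by
  refine prim_of_mem hh ha fun j hj => ?_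
  have hmem : a * h ^ j ∈ C.gr X X.dim := by
    have := C.mul_mem ha (pow_mem hh j)
    rwa [mul_one, hj] at this
  obtain ⟨q, hq⟩ := exists_hasDegree hmem
  have h1 : H.cl (C.push (snd X X) (C.pull (fst X X) (a * h ^ j))) = 0 := by
    rw [H.cl_push, H.cl_pull, RingHom.map_mul, h0, zero_mul, map_zero, map_zero]
  rw [(hq X).1] at h1
  rwa [eq_zero_of_cl H h1] at hq

lemma cl_ext_zero {a : C.A X} (h0 : H.cl a = 0) (b : C.A Z) : H.cl (C.ext a b) = 0 := by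
  rw [TheoryData.ext, RingHom.map_mul, H.cl_pull, h0, map_zero, zero_mul]

lemma cl_join_zero {α : C.A (X.prod Z)} (h0 : H.cl α = 0) (π : P ⟶ X.prod Z) (q : P ⟶ J) :
    H.cl (C.push q (C.pull π α)) = 0 := by
  rw [H.cl_push, H.cl_pull, h0, map_zero, map_zero]

/-- The homologically trivial classes on the product which are primitive in both factors. -/
lemma biPrim_inj (h𝓗 : IsHyperClass C d 𝓗) (hd : d ≠ 0) (hX : 𝓗 X h) (hZ : 𝓗 Z h') {s : ℕ}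
    (hI : InjAt H 𝓗 (X.dim + Z.dim + 2) (s + 1)) {α : C.A (X.prod Z)}
    (hm : α ∈ C.gr (X.prod Z) s) (hα : BiPrim C h h' α) (h0 : H.cl α = 0) : α = 0 := by
  obtain ⟨J, P, g, π, q, hg, hj⟩ := h𝓗.join hX hZ
  apply join_zero hd hj hα
  exact hI J g hg hj.dim_J _ (by exact_mod_cast join_mem hj hm) (cl_join_zero h0 π q)

lemma shift_inj (h𝓗 : IsHyperClass C d 𝓗) (hd : d ≠ 0) {n m l : ℕ} (hl : 1 ≤ l)
    (hI : InjAt H 𝓗 (n + 2 * l + 2) (m + l + 1)) : InjAt H 𝓗 n m := by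
  intro X h hX hdim a ha h0
  obtain ⟨Z, h', ζ, r, hZ, hZ2, hζ, hζh, hr, hζζ⟩ := h𝓗.even l hl
  have hh' : h' ∈ C.gr Z 1 := h𝓗.deg_one hZ
  have h1 : Prim h' ζ := by
    refine prim_of_mem hh' hζ fun j hj => ?_
    have : j = l := by omega
    rw [this]
    exact hζh
  have h2 : C.ext a ζ = 0 := by
    refine biPrim_inj (H := H) h𝓗 hd hX hZ (s := m + l) (by rw [hdim, hZ2]; exact hI)
      (by exact_mod_cast ext_mem' ha hζ) (biPrim_ext (prim_of_cl (h𝓗.deg_one hX) ha h0) h1)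
      (cl_ext_zero h0 ζ)
  have h3 : C.push (fst X Z) (C.ext a ζ * C.ext 1 ζ) = r • a := by
    rw [ext_mul_ext, mul_one, push_fst_ext _ hζζ]
  rw [h2, zero_mul, map_zero] at h3
  rw [← one_smul ℚ a, ← inv_mul_cancel₀ hr, mul_smul, ← h3, smul_zero]

variable {𝓕 : ℕ → ∀ X : 𝒱.Obj, C.A X → Prop}

lemma cover_inj (h𝓕 : IsHyperFamily C 𝓕) {m n s : ℕ} (hd : 1 ≤ d) (hm : 1 ≤ m)
    (hI : InjAt H (𝓕 (d * m)) n s) : InjAt H (𝓕 d) n s := by
  intro X h hX hdim a ha h0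
  obtain ⟨X', h', f, r, hX', hdim', hr, hf, -⟩ := h𝓕.cover d m hd hm X h hX
  have h1 : C.pull f a = 0 := hI X' h' hX' (by omega) _ (C.pull_mem f ha)
    (by rw [H.cl_pull, h0, map_zero])
  have h2 : C.push f (C.pull f a) = r • a := hf a
  rw [h1, map_zero] at h2
  rw [← one_smul ℚ a, ← inv_mul_cancel₀ hr, mul_smul, ← h2, smul_zero]

/-- Infinitely many dimensions suffice. -/
lemma inj_of_often (h𝓕 : IsHyperFamily C 𝓕) (hd : 1 ≤ d) {e : ℤ} (hO : Often H 𝓕 d e) {n m : ℕ}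
    (he : (n : ℤ) - 2 * m = e) : InjAt H (𝓕 d) n m := by
  obtain ⟨d', n', m', ⟨c, rfl⟩, hd3, hn, he', hI⟩ := hO (n + 4)
  have hc : 1 ≤ c := Nat.pos_of_ne_zero (by rintro rfl; simp at hd3)
  obtain ⟨l, rfl⟩ : ∃ l, n' = n + 2 * (l + 1) + 2 := ⟨(n' - n - 4) / 2, by omega⟩
  obtain rfl : m' = m + (l + 1) + 1 := by omega
  exact cover_inj h𝓕 hd hc (shift_inj (h𝓕.hyper _ hd3) (by omega) (by omega) hI)

/-- The iterated joins. -/
lemma iterate_hom (h𝓗 : IsHyperClass C d 𝓗) (hd : d ≠ 0) (hX : 𝓗 X h) {m : ℕ} {a : C.A X}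
    (ha : a ∈ C.gr X m) (h0 : H.cl a = 0) (r : ℕ) :
    ∃ (J : 𝒱.Obj) (g b : C.A J) (Θ : C.A (J.prod (pow X r))) (s : ℕ), 𝓗 J g ∧ b ∈ C.gr J s ∧
      H.cl b = 0 ∧ (J.dim : ℤ) + 2 = (r + 1) * (X.dim + 2) ∧
      (J.dim : ℤ) - 2 * s = (r + 1) * (X.dim - 2 * m) ∧ C.act Θ b = epow C a r := by
  induction r with
  | zero => exact ⟨X, h, a, dg C X, m, hX, ha, h0, by ring, by ring, act_dg C a⟩
  | succ r ih =>
    obtain ⟨J, g, b, Θ, s, hg, hb, hb0, hJ1, hJ2, hΘ⟩ := ih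
    obtain ⟨J', P, g', π, q, hg', hj⟩ := h𝓗.join hg hX
    have hd' : (-(d : ℚ)) ≠ 0 := neg_ne_zero.2 (by exact_mod_cast hd)
    have hbi := biPrim_ext (prim_of_cl (h𝓗.deg_one hg) hb hb0) (prim_of_cl (h𝓗.deg_one hX) ha h0)
    refine ⟨J', g', (-(d : ℚ))⁻¹ • C.push q (C.pull π (C.ext b a)),
      C.comp (C.comp (C.cograph q) (C.graph π)) (tens C Θ (dg C X)), s + m + 1, hg', ?_, ?_, ?_,
      ?_, ?_⟩
    · have := join_mem hj (ext_mem' hb ha)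
      exact Submodule.smul_mem _ _ (by exact_mod_cast this)
    · exact cl_smul_zero (cl_join_zero (cl_ext_zero hb0 a) π q) _
    · rw [hj.dim_J]
      push_cast
      linear_combination hJ1
    · rw [hj.dim_J]
      push_cast
      linear_combination hJ2
    · have h1 : C.push π (C.pull q (C.push q (C.pull π (C.ext b a)))) = (-(d : ℚ)) • C.ext b a :=
        hj.self _ hbi
      have h2 : C.act (tens C Θ (dg C X)) (C.ext b a) = C.ext (C.act Θ b) (C.act (dg C X) a) :=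
        act_tens_ext C Θ (dg C X) (fun f c => ch_comm C _ _) b a
      rw [C.act_comp, C.act_comp, C.act_cograph, C.act_graph, map_smul, map_smul, h1, smul_smul,
        inv_mul_cancel₀ hd', one_smul]
      rw [hΘ, act_dg] at h2
      exact h2

lemma epow_zero_of_often (h𝓕 : IsHyperFamily C 𝓕) (hd : 3 ≤ d) (hX : 𝓕 d X h) {m r : ℕ}
    (hO : Often H 𝓕 d ((r + 1) * (X.dim - 2 * m))) {a : C.A X} (ha : a ∈ C.gr X m)
    (h0 : H.cl a = 0) : epow C a r = 0 := by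
  obtain ⟨J, g, b, Θ, s, hg, hb, hb0, -, hJ2, hΘ⟩ := iterate_hom (h𝓕.hyper d hd) (by omega) hX ha
    h0 r
  have h1 := inj_of_often h𝓕 (by omega) hO hJ2 J g hg rfl b hb hb0
  rw [← hΘ, h1, C.act_map_zero]

lemma isNil_of_asymptotic (h𝓕 : IsHyperFamily C 𝓕) (hd : 3 ≤ d) (hA : AsymptoticQ1 H 𝓕 d)
    (hX : 𝓕 d X h) {m : ℕ} (hm : X.dim ≠ 2 * m) {a : C.A X} (ha : a ∈ C.gr X m)
    (h0 : H.cl a = 0) : IsNil C a := by
  obtain ⟨N, hN⟩ := hA (X.dim + 2)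
  obtain ⟨J, g, b, Θ, s, hg, hb, hb0, hJ1, hJ2, hΘ⟩ := iterate_hom (h𝓕.hyper d hd) (by omega) hX
    ha h0 N
  have hne : (X.dim : ℤ) - 2 * m ≠ 0 := by omega
  have h1 : (1 : ℤ) ≤ |(X.dim : ℤ) - 2 * m| := Int.one_le_abs hne
  have h2 : (N : ℤ) ≤ J.dim := by nlinarith [Int.natCast_nonneg N, Int.natCast_nonneg X.dim]
  have h3 : (J.dim : ℤ) ≤ ((X.dim + 2 : ℕ) : ℤ) * |(J.dim : ℤ) - 2 * s| := by
    rw [hJ2, abs_mul, abs_of_nonneg (by positivity)]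
    push_cast
    nlinarith [Int.natCast_nonneg N, Int.natCast_nonneg X.dim,
      mul_nonneg (mul_nonneg (by positivity : (0 : ℤ) ≤ N + 1) (by positivity : (0 : ℤ) ≤ X.dim + 2))
        (sub_nonneg.2 h1)]
  have h4 := hN J.dim s (by exact_mod_cast h2) h3 J g hg rfl b hb hb0
  exact ⟨N, by rw [← hΘ, h4, C.act_map_zero]⟩

/-- **Hypersurfaces.** -/
theorem hypersurfaces (h𝓕 : IsHyperFamily C 𝓕) :
    (∀ d : ℕ, 1 ≤ d → ∀ e : ℤ, Often H 𝓕 d e → ∀ n m : ℕ, (n : ℤ) - 2 * m = e →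
      InjAt H (𝓕 d) n m) ∧
    (∀ d : ℕ, 3 ≤ d → ∀ (X Z : 𝒱.Obj) (h : C.A X) (h' : C.A Z), 𝓕 d X h → 𝓕 d Z h' →
      ∀ s : ℕ, Often H 𝓕 d (X.dim + Z.dim - 2 * s) → ∀ α : C.A (X.prod Z), C.Deg s α →
        BiPrim C h h' α → H.cl α = 0 → α = 0) ∧
    (∀ d : ℕ, 3 ≤ d → ∀ (X : 𝒱.Obj) (h : C.A X), 𝓕 d X h → ∀ (m r : ℕ) (a : C.A X),
      C.Deg m a → H.cl a = 0 → Often H 𝓕 d ((r + 1) * (X.dim - 2 * m)) → epow C a r = 0) ∧
    (∀ d : ℕ, 3 ≤ d → AsymptoticQ1 H 𝓕 d → ∀ (X : 𝒱.Obj) (h : C.A X), 𝓕 d X h →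
      ∀ (m : ℕ) (a : C.A X), X.dim ≠ 2 * m → C.Deg m a → H.cl a = 0 → IsNil C a) := by
  refine ⟨fun d hd e hO n m he => inj_of_often h𝓕 hd hO he, ?_, ?_, ?_⟩
  · intro d hd X Z h h' hX hZ s hO α hm hα h0
    exact biPrim_inj (h𝓕.hyper d hd) (by omega) hX hZ
      (inj_of_often h𝓕 (by omega) hO (by push_cast; ring)) hm hα h0
  · intro d hd X h hX m r a ha h0 hO
    exact epow_zero_of_often h𝓕 hd hX hO ha h0
  · intro d hd hA X h hX m a hm ha h0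
    exact isNil_of_asymptotic h𝓕 hd hA hX hm ha h0

end Pool.Agent.Run7.H634.RV
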