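import Pool.Agent.Run7.h634.RV.Defs
import Pool.Agent.Run7.h634.HC.PowDefs

/-!
# Homologically trivial cycles on hypersurfaces: definitions
-/

set_option autoImplicit false

open CategoryTheory AlgebraicGeometry

universe u v w

namespace Pool.Agent.Run7.H634.RV

open Pool.Agent.H914 Pool.Agent.H914.VarClass Pool.Agent.H914.VarClass.Obj Pool.Agent.W492.BB
  Pool.Agent.W550.Corr Pool.Agent.TH133 Pool.Agent.Run7.H634.HC

variable {k : Type u} [Field k] {𝒱 : VarClass k} {C : TheoryData.{u, v, 0} 𝒱 ℚ}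
  {K : Type w} [Field K] (H : WeilTheoryData.{u, v, w} C K)

/-- Homologically trivial cycles of codimension `m` are zero in the Chow group with rational
coefficients, for all `X` of dimension `n` in the class. -/
def InjAt (𝓗 : ∀ X : 𝒱.Obj, C.A X → Prop) (n m : ℕ) : Prop :=
  ∀ (X : 𝒱.Obj) (h : C.A X), 𝓗 X h → X.dim = n → Inj H X m

/-- For every `N` there are a multiple `d' ≥ 3` of `d`, a dimension `n ≥ N` and a codimension `m` with
`n - 2 m = e` such that homologically trivial cycles of codimension `m` on the hypersurfaces of degree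
`d'` and dimension `n` are zero (rational coefficients). -/
def Often (𝓕 : ℕ → ∀ X : 𝒱.Obj, C.A X → Prop) (d : ℕ) (e : ℤ) : Prop :=
  ∀ N : ℕ, ∃ d' n m : ℕ, d ∣ d' ∧ 3 ≤ d' ∧ N ≤ n ∧ (n : ℤ) - 2 * m = e ∧ InjAt H (𝓕 d') n m

/-- The asymptotic form of the question for hypersurfaces of degree `d`: for every `M` there is an `N`
such that homologically trivial cycles of codimension `m` on the hypersurfaces of degree `d` and
dimension `n ≥ N` are zero (rational coefficients) if `n ≤ M |n - 2 m|`, that is, if the distance of `m`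
to the middle is at least `n / (2 M)`. -/
def AsymptoticQ1 (𝓕 : ℕ → ∀ X : 𝒱.Obj, C.A X → Prop) (d : ℕ) : Prop :=
  ∀ M : ℕ, ∃ N : ℕ, ∀ n m : ℕ, N ≤ n → (n : ℤ) ≤ M * |(n : ℤ) - 2 * m| → InjAt H (𝓕 d) n m

end Pool.Agent.Run7.H634.RV
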