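import Pool.Agent.Run7.h634.RV.KerDefs
import Pool.Agent.Run7.h634.RV.Main
import Pool.Agent.Run7.h634.HC.Pow

/-!
# Classes of cycles stable under correspondences
-/

set_option autoImplicit false

open CategoryTheory AlgebraicGeometry

universe u v w t

namespace Pool.Agent.Run7.H634.RV

open Pool.Agent.H914 Pool.Agent.H914.VarClass Pool.Agent.H914.VarClass.Obj Pool.Agent.W492.BB
  Pool.Agent.W550.Corr Pool.Agent.TH133

set_option linter.unusedSectionVars false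

variable {k : Type u} [Field k] {𝒱 : VarClass k} {C : TheoryData.{u, v, 0} 𝒱 ℚ}
  [hC : IsChowProj C] {X Y V : 𝒱.Obj} {P N : ∀ X : 𝒱.Obj, C.A X → Prop} {𝓡 : 𝒱.Obj → Prop}

include hC

/-- The step with a blow-up. -/
lemma impl_of_blowUp (hP : Stable C P) (hN : Stable C N) {c : ℕ} (hV : IsBlowUp C X V c) {m j : ℕ}
    (hj : 1 ≤ j) (hjc : j < c) (h : Impl C P N V (m + j)) : Impl C P N X m := by
  intro z hz hPz
  obtain ⟨Γ, Γ', h1, -⟩ := hV.motive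
  obtain ⟨h2, -, h3⟩ := h1 j hj hjc
  have h4 : C.act (Γ j) z ∈ C.gr V ((m + j : ℕ) : ℤ) := by
    have := act_mem h2 hz
    rwa [← Nat.cast_add] at this
  have h5 := hN _ _ (Γ' j) _ (h _ h4 (hP _ _ (Γ j) z hPz))
  rwa [← C.act_comp, h3, act_dg] at h5

lemma impl_of_lt (h0 : ∀ X : 𝒱.Obj, N X 0) {m : ℕ} (hm : X.dim < m) : Impl C P N X m := by
  intro z hz _
  rw [hC.gr_top X m z hz (by exact_mod_cast hm)]
  exact h0 X

/-- Any pair of a larger codimension and a larger dimension of the cycles can be reached. -/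
lemma impl_of_pair (hP : Stable C P) (hN : Stable C N) {c₀ : ℕ}
    (hc : ∀ c : ℕ, c₀ ≤ c → ∃ V : 𝒱.Obj, 𝓡 V ∧ IsBlowUp C X V c) {m i m' i' : ℕ}
    (hX : m + i = X.dim) (hm : m < m') (hi : i < i') (hbig : c₀ + X.dim ≤ m' + i')
    (h : ∀ V : 𝒱.Obj, 𝓡 V → V.dim = m' + i' → Impl C P N V m') : Impl C P N X m := by
  obtain ⟨V, hV, hb⟩ := hc (m' + i' - X.dim) (by omega)
  have h1 := h V hV (by rw [hb.dim]; omega)
  refine impl_of_blowUp hP hN hb (j := m' - m) (by omega) (by omega) ?_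
  rwa [Nat.add_sub_cancel' hm.le]

/-- A cofinal set of pairs suffices. -/
lemma impl_of_cofinal (hP : Stable C P) (hN : Stable C N) (h0 : ∀ X : 𝒱.Obj, N X 0)
    (h𝓡 : HasBlowUps C 𝓡) {T : ℕ → ℕ → Prop} (hT : CofinalPairs T)
    (h : ∀ m i : ℕ, T m i → ∀ V : 𝒱.Obj, 𝓡 V → V.dim = m + i → Impl C P N V m)
    (X : 𝒱.Obj) (m : ℕ) : Impl C P N X m := by
  by_cases hm : m ≤ X.dim
  · obtain ⟨c₀, hc⟩ := h𝓡 X
    obtain ⟨m', i', h1, h2, h3⟩ := hT (X.dim + c₀ + 1)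
    exact impl_of_pair hP hN hc (m := m) (i := X.dim - m) (by omega) (by omega) (by omega)
      (by omega) (h m' i' h3)
  · exact impl_of_lt h0 (by omega)

/-- Fixed codimension. -/
lemma impl_codim (hP : Stable C P) (hN : Stable C N) (h0 : ∀ X : 𝒱.Obj, N X 0)
    (h𝓡 : HasBlowUps C 𝓡) {m m' M : ℕ} (hm : m < m')
    (h : ∀ V : 𝒱.Obj, 𝓡 V → M ≤ V.dim → Impl C P N V m') (X : 𝒱.Obj) : Impl C P N X m := by
  by_cases hmX : m ≤ X.dim
  · obtain ⟨c₀, hc⟩ := h𝓡 X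
    exact impl_of_pair hP hN hc (m := m) (i := X.dim - m) (m' := m') (i' := X.dim + c₀ + M + 1)
      (by omega) hm (by omega) (by omega) fun V hV hd => h V hV (by omega)
  · exact impl_of_lt h0 (by omega)

/-- Fixed dimension of the cycles. -/
lemma impl_dim (hP : Stable C P) (hN : Stable C N) (h𝓡 : HasBlowUps C 𝓡) {i i' M : ℕ} (hi : i < i')
    (h : ∀ (V : 𝒱.Obj) (m : ℕ), 𝓡 V → M ≤ V.dim → m + i' = V.dim → Impl C P N V m)
    (X : 𝒱.Obj) (m : ℕ) (hX : m + i = X.dim) : Impl C P N X m := by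
  obtain ⟨c₀, hc⟩ := h𝓡 X
  exact impl_of_pair hP hN hc (m := m) (i := i) (m' := X.dim + c₀ + M + 1) (i' := i')
    hX (by omega) hi (by omega) fun V hV hd => h V _ hV (by omega) hd.symm

section Weil

variable {K : Type w} [Field K] {H : WeilTheoryData.{u, v, w} C K} [hH : IsWeilProj H]

include hH

lemma stable_hom : Stable C fun (X : 𝒱.Obj) (z : C.A X) => H.cl z = 0 := by
  intro X Y Γ z hz
  have hz' : H.cl z = 0 := hz
  change H.cl (C.act Γ z) = 0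
  rw [cl_act, hz', H.act_map_zero]

lemma stable_aj (𝒥 : AJMaps.{u, v, w, t} H) :
    Stable C fun (X : 𝒱.Obj) (z : C.A X) => H.cl z = 0 ∧ 𝒥.aj X z = 0 := by
  rintro X Y Γ z ⟨hz, hz'⟩
  refine ⟨stable_hom (H := H) X Y Γ z hz, ?_⟩
  rw [𝒥.aj_act Γ z hz, hz', map_zero]

omit hH in
lemma stable_zero : Stable C fun (X : 𝒱.Obj) (z : C.A X) => z = 0 := by
  rintro X Y Γ z rfl
  exact C.act_map_zero Γ

omit hH in
lemma stable_nil : Stable C fun (X : 𝒱.Obj) (z : C.A X) => HC.IsNil C z :=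
  fun _ _ Γ _ hz => HC.IsNil.act hz Γ

lemma aj_sections (𝒥 : AJMaps.{u, v, w, t} H) (hS : 𝒥.HasSections) (i : ℕ)
    (hQ : ∀ X : 𝒱.Obj, X.dim = 2 * i + 2 → 𝒥.Injective X (i + 2)) :
    ∀ (t : ℕ) (X : 𝒱.Obj) (m : ℕ), m + i = X.dim → X.dim + 2 + t = 2 * m → 𝒥.Injective X m := by
  intro t
  induction t with
  | zero =>
    intro X m hi hm
    obtain rfl : m = i + 2 := by omega
    exact hQ X (by omega)
  | succ t ih =>
    intro X m hi hm z hz h0 h1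
    obtain ⟨Y, f, z', hY, hz', rfl, h2, h3⟩ := hS X m z hz h0 h1 (by omega) (by omega)
    obtain ⟨l, rfl⟩ : ∃ l, m = l + 1 := ⟨m - 1, by omega⟩
    have hz2 : z' ∈ C.gr Y ((l : ℕ) : ℤ) := by
      have h1 : C.Deg (((l + 1 : ℕ) : ℤ) - 1) z' := hz'
      rwa [show ((l + 1 : ℕ) : ℤ) - 1 = l by push_cast; ring] at h1
    rw [ih Y l (by omega) (by omega) z' hz2 h2 h3]
    exact map_zero _

lemma voevodsky_sections (hS : HasHomSections H) (i : ℕ)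
    (hQ : ∀ X : 𝒱.Obj, X.dim = 2 * i + 1 → Voevodsky H X (i + 1)) :
    ∀ (t : ℕ) (X : 𝒱.Obj) (m : ℕ), m + i = X.dim → X.dim + 1 + t = 2 * m → Voevodsky H X m := by
  intro t
  induction t with
  | zero =>
    intro X m hi hm
    obtain rfl : m = i + 1 := by omega
    exact hQ X (by omega)
  | succ t ih =>
    intro X m hi hm z hz h0
    obtain ⟨Y, f, z', hY, hz', rfl, h2⟩ := hS X m z hz h0 (by omega) (by omega)
    obtain ⟨l, rfl⟩ : ∃ l, m = l + 1 := ⟨m - 1, by omega⟩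
    have hz2 : z' ∈ C.gr Y ((l : ℕ) : ℤ) := by
      have h1 : C.Deg (((l + 1 : ℕ) : ℤ) - 1) z' := hz'
      rwa [show ((l + 1 : ℕ) : ℤ) - 1 = l by push_cast; ring] at h1
    have h4 := HC.IsNil.act (ih Y l (by omega) (by omega) z' hz2 h2) (C.graph f)
    rwa [C.act_graph] at h4

/-- **Abel-Jacobi maps.** -/
theorem aj_main (𝒥 : AJMaps.{u, v, w, t} H) (h𝓡 : HasBlowUps C 𝓡) :
    (∀ T : ℕ → ℕ → Prop, CofinalPairs T → ((∀ (X : 𝒱.Obj) (m : ℕ), 𝒥.Injective X m) ↔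
      ∀ m i : ℕ, T m i → ∀ V : 𝒱.Obj, 𝓡 V → V.dim = m + i → 𝒥.Injective V m)) ∧
    (∀ m m' M : ℕ, m < m' → (∀ V : 𝒱.Obj, 𝓡 V → M ≤ V.dim → 𝒥.Injective V m') →
      ∀ X : 𝒱.Obj, 𝒥.Injective X m) ∧
    (∀ i i' M : ℕ, i < i' →
      (∀ (V : 𝒱.Obj) (m : ℕ), 𝓡 V → M ≤ V.dim → m + i' = V.dim → 𝒥.Injective V m) →
      ∀ (X : 𝒱.Obj) (m : ℕ), m + i = X.dim → 𝒥.Injective X m) ∧
    (𝒥.HasSections → ∀ i : ℕ, (∀ X : 𝒱.Obj, X.dim = 2 * i + 2 → 𝒥.Injective X (i + 2)) →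
      ∀ (X : 𝒱.Obj) (m : ℕ), m + i = X.dim → X.dim + 2 ≤ 2 * m → 𝒥.Injective X m) ∧
    (𝒥.HasSections → ∀ i i' : ℕ, i < i' →
      (∀ X : 𝒱.Obj, X.dim = 2 * i' + 2 → 𝒥.Injective X (i' + 2)) →
      ∀ (X : 𝒱.Obj) (m : ℕ), m + i = X.dim → 𝒥.Injective X m) := by
  have key : ∀ (X : 𝒱.Obj) (m : ℕ), 𝒥.Injective X m ↔
      Impl C (fun (X : 𝒱.Obj) (z : C.A X) => H.cl z = 0 ∧ 𝒥.aj X z = 0)
        (fun (X : 𝒱.Obj) (z : C.A X) => z = 0) X m :=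
    fun X m => ⟨fun h z hz hp => h z hz hp.1 hp.2, fun h z hz h1 h2 => h z hz ⟨h1, h2⟩⟩
  have hsec : 𝒥.HasSections → ∀ i : ℕ,
      (∀ X : 𝒱.Obj, X.dim = 2 * i + 2 → 𝒥.Injective X (i + 2)) →
      ∀ (X : 𝒱.Obj) (m : ℕ), m + i = X.dim → X.dim + 2 ≤ 2 * m → 𝒥.Injective X m := by
    intro hS i hQ X m hi hm
    obtain ⟨t, ht⟩ := Nat.exists_eq_add_of_le hm
    exact aj_sections 𝒥 hS i hQ t X m hi ht.symm
  have hdim : ∀ i i' M : ℕ, i < i' →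
      (∀ (V : 𝒱.Obj) (m : ℕ), 𝓡 V → M ≤ V.dim → m + i' = V.dim → 𝒥.Injective V m) →
      ∀ (X : 𝒱.Obj) (m : ℕ), m + i = X.dim → 𝒥.Injective X m := by
    intro i i' M hi h X m hX
    rw [key]
    exact impl_dim (stable_aj 𝒥) stable_zero h𝓡 hi
      (fun V m hV hM hd => (key V m).1 (h V m hV hM hd)) X m hX
  refine ⟨fun T hT => ⟨fun h m i _ V _ _ => h V m, fun h X m => ?_⟩, fun m m' M hm h X => ?_, hdim,
    hsec, fun hS i i' hi h X m hX => ?_⟩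
  · rw [key]
    exact impl_of_cofinal (stable_aj 𝒥) stable_zero (fun _ => rfl) h𝓡 hT
      (fun m i hmi V hV hd => (key V m).1 (h m i hmi V hV hd)) X m
  · rw [key]
    exact impl_codim (stable_aj 𝒥) stable_zero (fun _ => rfl) h𝓡 hm
      (fun V hV hM => (key V m').1 (h V hV hM)) X
  · exact hdim i i' (2 * i' + 2) hi (fun V l _ hM hd => hsec hS i' h V l hd (by omega)) X m hX

/-- **Smash nilpotence.** -/
theorem voevodsky_main (h𝓡 : HasBlowUps C 𝓡) :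
    (∀ T : ℕ → ℕ → Prop, CofinalPairs T → ((∀ (X : 𝒱.Obj) (m : ℕ), Voevodsky H X m) ↔
      ∀ m i : ℕ, T m i → ∀ V : 𝒱.Obj, 𝓡 V → V.dim = m + i → Voevodsky H V m)) ∧
    (∀ m m' M : ℕ, m < m' → (∀ V : 𝒱.Obj, 𝓡 V → M ≤ V.dim → Voevodsky H V m') →
      ∀ X : 𝒱.Obj, Voevodsky H X m) ∧
    (∀ i i' M : ℕ, i < i' →
      (∀ (V : 𝒱.Obj) (m : ℕ), 𝓡 V → M ≤ V.dim → m + i' = V.dim → Voevodsky H V m) →
      ∀ (X : 𝒱.Obj) (m : ℕ), m + i = X.dim → Voevodsky H X m) ∧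
    (HasHomSections H → ∀ i : ℕ, (∀ X : 𝒱.Obj, X.dim = 2 * i + 1 → Voevodsky H X (i + 1)) →
      ∀ (X : 𝒱.Obj) (m : ℕ), m + i = X.dim → X.dim + 1 ≤ 2 * m → Voevodsky H X m) ∧
    (HasHomSections H → ∀ i i' : ℕ, i < i' →
      (∀ X : 𝒱.Obj, X.dim = 2 * i' + 1 → Voevodsky H X (i' + 1)) →
      ∀ (X : 𝒱.Obj) (m : ℕ), m + i = X.dim → Voevodsky H X m) := by
  have hsec : HasHomSections H → ∀ i : ℕ,
      (∀ X : 𝒱.Obj, X.dim = 2 * i + 1 → Voevodsky H X (i + 1)) →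
      ∀ (X : 𝒱.Obj) (m : ℕ), m + i = X.dim → X.dim + 1 ≤ 2 * m → Voevodsky H X m := by
    intro hS i hQ X m hi hm
    obtain ⟨t, ht⟩ := Nat.exists_eq_add_of_le hm
    exact voevodsky_sections hS i hQ t X m hi ht.symm
  have hdim : ∀ i i' M : ℕ, i < i' →
      (∀ (V : 𝒱.Obj) (m : ℕ), 𝓡 V → M ≤ V.dim → m + i' = V.dim → Voevodsky H V m) →
      ∀ (X : 𝒱.Obj) (m : ℕ), m + i = X.dim → Voevodsky H X m :=
    fun i i' M hi h X m hX => impl_dim (stable_hom (H := H)) stable_nil h𝓡 hi h X m hX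
  refine ⟨fun T hT => ⟨fun h m i _ V _ _ => h V m, fun h X m => ?_⟩, fun m m' M hm h X => ?_, hdim,
    hsec, fun hS i i' hi h X m hX => ?_⟩
  · exact impl_of_cofinal (stable_hom (H := H)) stable_nil (fun _ => HC.isNil_zero) h𝓡 hT h X m
  · exact impl_codim (stable_hom (H := H)) stable_nil (fun _ => HC.isNil_zero) h𝓡 hm h X
  · exact hdim i i' (2 * i' + 1) hi (fun V l _ hM hd => hsec hS i' h V l hd (by omega)) X m hX

end Weil

end Pool.Agent.Run7.H634.RV
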