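import Pool.Agent.Run7.h634.RV.Defs
import Pool.Agent.Run7.h634.HC.PowDefs

/-!
# Classes of cycles stable under correspondences: definitions
-/

set_option autoImplicit false

open CategoryTheory AlgebraicGeometry

universe u v w t

namespace Pool.Agent.Run7.H634.RV

open Pool.Agent.H914 Pool.Agent.H914.VarClass Pool.Agent.H914.VarClass.Obj Pool.Agent.W492.BB
  Pool.Agent.W550.Corr Pool.Agent.TH133

variable {k : Type u} [Field k] {𝒱 : VarClass k} (C : TheoryData.{u, v, 0} 𝒱 ℚ)

/-- For every `X` and all large `c` the class `𝓡` contains the blow-up of a projective space of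
dimension `dim X + c` along `X` (for instance `𝓡` can be the class of all smooth projective rational
varieties, since `X` can be embedded in all projective spaces of dimension at least `2 dim X + 1`). -/
def HasBlowUps (𝓡 : 𝒱.Obj → Prop) : Prop :=
  ∀ X : 𝒱.Obj, ∃ c₀ : ℕ, ∀ c : ℕ, c₀ ≤ c → ∃ V : 𝒱.Obj, 𝓡 V ∧ IsBlowUp C X V c

/-- For every `N` there is a pair `(m, i)` in `T` with `m ≥ N` and `i ≥ N`. -/
def CofinalPairs (T : ℕ → ℕ → Prop) : Prop := ∀ N : ℕ, ∃ m i : ℕ, N ≤ m ∧ N ≤ i ∧ T m i

/-- The property `K` of classes of cycles is stable under correspondences. -/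
def Stable (K : ∀ X : 𝒱.Obj, C.A X → Prop) : Prop :=
  ∀ (X Y : 𝒱.Obj) (Γ : C.A (X.prod Y)) (z : C.A X), K X z → K Y (C.act Γ z)

/-- All classes in `CH^m(X)` with the property `K` have the property `N`. -/
def Impl (K N : ∀ X : 𝒱.Obj, C.A X → Prop) (X : 𝒱.Obj) (m : ℕ) : Prop :=
  ∀ z : C.A X, C.Deg m z → K X z → N X z

variable {C} {K : Type w} [Field K] (H : WeilTheoryData.{u, v, w} C K)

/-- Abel-Jacobi maps: `J X` stands for the product of the groups `J^m(X) ⊗ ℚ` for all `m` (intermediate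
Jacobians or similar groups), `aj X` for the Abel-Jacobi map, whose values are only used for
homologically trivial cycles; it is compatible with correspondences. -/
structure AJMaps where
  /-- the target of the Abel-Jacobi map -/
  J : 𝒱.Obj → Type t
  [group : ∀ X, AddCommGroup (J X)]
  /-- the Abel-Jacobi map -/
  aj : ∀ X : 𝒱.Obj, C.A X → J X
  /-- the action of correspondences on the targets -/
  corr : ∀ {X Y : 𝒱.Obj}, C.A (X.prod Y) → (J X →+ J Y)
  aj_act : ∀ {X Y : 𝒱.Obj} (Γ : C.A (X.prod Y)) (z : C.A X), H.cl z = 0 →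
    aj Y (C.act Γ z) = corr Γ (aj X z)

attribute [instance] AJMaps.group

variable {H}

/-- The Abel-Jacobi map is injective on homologically trivial cycles of codimension `m` on `X`
(rational coefficients): those with the class zero are zero. -/
def AJMaps.Injective (𝒥 : AJMaps.{u, v, w, t} H) (X : 𝒱.Obj) (m : ℕ) : Prop :=
  ∀ z : C.A X, C.Deg m z → H.cl z = 0 → 𝒥.aj X z = 0 → z = 0

/-- Cycles of small dimension and smooth ample divisors: every homologically trivial class
`z ∈ CH^m(X)` with `m ≤ n = dim X` and `2 m ≥ n + 3` (so the dimension `i = n - m` satisfies `n ≥ 2 i + 3`) with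
the Abel-Jacobi class zero is `f_* z'` for a smooth ample divisor `f : Y ⟶ X` and a homologically
trivial `z'` with the Abel-Jacobi class zero (by Kleiman's theorem on the smoothing of cycles, and the
weak Lefschetz theorem `H_l(Y) = H_l(X)` for `l ≤ 2 i + 1 < dim Y`). -/
def AJMaps.HasSections (𝒥 : AJMaps.{u, v, w, t} H) : Prop :=
  ∀ (X : 𝒱.Obj) (m : ℕ) (z : C.A X), C.Deg m z → H.cl z = 0 → 𝒥.aj X z = 0 → m ≤ X.dim →
    X.dim + 3 ≤ 2 * m → ∃ (Y : 𝒱.Obj) (f : Y ⟶ X) (z' : C.A Y), Y.dim + 1 = X.dim ∧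
      C.Deg (m - 1) z' ∧ C.down f z' = z ∧ H.cl z' = 0 ∧ 𝒥.aj Y z' = 0

variable (H)

/-- Cycles of small dimension and smooth ample divisors: every homologically trivial class
`z ∈ CH^m(X)` with `m ≤ n = dim X` and `2 m ≥ n + 2` (so the dimension `i = n - m` satisfies `n ≥ 2 i + 2`)
is `f_* z'` for a smooth ample divisor `f : Y ⟶ X` and a homologically trivial `z'` (by Kleiman's theorem
on the smoothing of cycles, and the weak Lefschetz theorem `H_(2i)(Y) = H_(2i)(X)` for
`2 i < dim Y`). -/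
def HasHomSections : Prop :=
  ∀ (X : 𝒱.Obj) (m : ℕ) (z : C.A X), C.Deg m z → H.cl z = 0 → m ≤ X.dim →
    X.dim + 2 ≤ 2 * m → ∃ (Y : 𝒱.Obj) (f : Y ⟶ X) (z' : C.A Y), Y.dim + 1 = X.dim ∧
      C.Deg (m - 1) z' ∧ C.down f z' = z ∧ H.cl z' = 0

/-- All homologically trivial cycles of codimension `m` on `X` are smash nilpotent (rational
coefficients). -/
def Voevodsky (X : 𝒱.Obj) (m : ℕ) : Prop :=
  ∀ z : C.A X, C.Deg m z → H.cl z = 0 → HC.IsNil C z

end Pool.Agent.Run7.H634.RV
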