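import Mathlib.Algebra.Group.Hom.Defs
import Mathlib.Tactic.Linarith

/-!
# Abel-Jacobi maps for open varieties
-/

set_option autoImplicit false

universe u v w t

namespace Pool.Agent.Run7.H634.OpenAJ

/-- The data of the question: smooth quasi-projective varieties over `ℚ̄`, their Chow groups
`Ch V k = CH^k(V; ℚ)`, their cohomology `Coh V k = H^(2k)(V)` with the cycle class map, the groups
`Jac V k = J^k(V) ⊗ ℚ` and the Abel-Jacobi maps, whose values are only used for homologically trivial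
cycles. -/
structure Theory where
  /-- smooth quasi-projective varieties -/
  Var : Type u
  /-- the dimension -/
  dim : Var → ℕ
  /-- affine varieties -/
  Affine : Var → Prop
  /-- rational varieties -/
  Rational : Var → Prop
  /-- Chow groups with rational coefficients -/
  Ch : Var → ℕ → Type v
  /-- cohomology in even degrees -/
  Coh : Var → ℕ → Type w
  /-- the target of the Abel-Jacobi maps -/
  Jac : Var → ℕ → Type t
  [chGroup : ∀ V k, AddCommGroup (Ch V k)]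
  [cohGroup : ∀ V k, AddCommGroup (Coh V k)]
  [jacGroup : ∀ V k, AddCommGroup (Jac V k)]
  /-- the cycle class map -/
  cl : ∀ V k, Ch V k →+ Coh V k
  /-- the Abel-Jacobi map -/
  aj : ∀ V k, Ch V k → Jac V k

attribute [instance] Theory.chGroup Theory.cohGroup Theory.jacGroup

variable (𝒯 : Theory.{u, v, w, t})

/-- The Abel-Jacobi map is injective on the homologically trivial cycles of codimension `k` on `V`
(rational coefficients): cycles which are homologically trivial with Abel-Jacobi class zero are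
zero. -/
def Injective (V : 𝒯.Var) (k : ℕ) : Prop :=
  ∀ z : 𝒯.Ch V k, 𝒯.cl V k z = 0 → 𝒯.aj V k z = 0 → z = 0

/-- There are homomorphisms `CH^k(V) → CH^l(W) → CH^k(V)` whose composition is the identity, and
homomorphisms of the cohomology groups and of the groups `J^k(V)`, `J^l(W)` which are compatible with
the first one. -/
def Summand (V : 𝒯.Var) (k : ℕ) (W : 𝒯.Var) (l : ℕ) : Prop :=
  ∃ (a : 𝒯.Ch V k →+ 𝒯.Ch W l) (p : 𝒯.Ch W l →+ 𝒯.Ch V k) (b : 𝒯.Coh V k →+ 𝒯.Coh W l)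
    (e : 𝒯.Jac V k →+ 𝒯.Jac W l), (∀ z, p (a z) = z) ∧ (∀ z, 𝒯.cl W l (a z) = b (𝒯.cl V k z)) ∧
      ∀ z, 𝒯.cl V k z = 0 → 𝒯.aj W l (a z) = e (𝒯.aj V k z)

/-- The known facts which are used.

* `blowUp`: `V` is closed in an open subset `U` of a projective space of dimension `dim V + c`, for all
  large `c`; the blow-up `W` of `U` along `V` is smooth, quasi-projective and rational, and `CH^k(V)` is a
  summand of `CH^(k+j)(W)` for `1 ≤ j < c` (the formula for the blow-up, which is compatible with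
  the cohomology as a mixed Hodge structure).
* `torsor`: there is a torsor `W` under a vector bundle on `V` which is an affine variety (Jouanolou);
  it is rational if `V` is rational, and the pull-back induces isomorphisms of all groups.
* `line`: `W = V × 𝔸^r`. -/
structure Facts : Prop where
  blowUp : ∀ V : 𝒯.Var, ∃ c₀ : ℕ, ∀ c : ℕ, c₀ ≤ c → ∃ W : 𝒯.Var, 𝒯.Rational W ∧
    𝒯.dim W = 𝒯.dim V + c ∧ ∀ k j : ℕ, 1 ≤ j → j < c → Summand 𝒯 V k W (k + j)
  torsor : ∀ V : 𝒯.Var, ∃ W : 𝒯.Var, 𝒯.Affine W ∧ (𝒯.Rational V → 𝒯.Rational W) ∧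
    ∀ k : ℕ, Summand 𝒯 V k W k
  line : ∀ (V : 𝒯.Var) (r : ℕ), ∃ W : 𝒯.Var, 𝒯.dim W = 𝒯.dim V + r ∧
    (𝒯.Affine V → 𝒯.Affine W) ∧ (𝒯.Rational V → 𝒯.Rational W) ∧ ∀ k : ℕ, Summand 𝒯 V k W k

variable {𝒯}

lemma injective_of_summand {V W : 𝒯.Var} {k l : ℕ} (h : Summand 𝒯 V k W l)
    (hW : Injective 𝒯 W l) : Injective 𝒯 V k := by
  obtain ⟨a, p, b, e, h1, h2, h3⟩ := h
  intro z hz hz'
  have h4 : a z = 0 := hW _ (by rw [h2, hz, map_zero]) (by rw [h3 z hz, hz', map_zero])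
  rw [← h1 z, h4, map_zero]

/-- The reduction to affine rational varieties of large dimension, in a larger codimension. -/
lemma injective_of_affine (hF : Facts 𝒯) {k k' M : ℕ} (hk : k < k')
    (h : ∀ W : 𝒯.Var, 𝒯.Affine W → 𝒯.Rational W → M ≤ 𝒯.dim W → Injective 𝒯 W k')
    (V : 𝒯.Var) : Injective 𝒯 V k := by
  obtain ⟨c₀, hc⟩ := hF.blowUp V
  obtain ⟨W, hW, -, hs⟩ := hc (c₀ + k' + 1) (by omega)
  obtain ⟨W', hW', hr', hs'⟩ := hF.torsor W
  obtain ⟨W'', hd, ha, hr, hs''⟩ := hF.line W' M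
  have h1 := h W'' (ha hW') (hr (hr' hW)) (by omega)
  have h2 := injective_of_summand (hs' k') (injective_of_summand (hs'' k') h1)
  have h3 := hs k (k' - k) (by omega) (by omega)
  rw [Nat.add_sub_cancel' hk.le] at h3
  exact injective_of_summand h3 h2

/-- The reduction to rational varieties in given codimensions and dimensions of cycles. -/
lemma injective_of_pairs (hF : Facts 𝒯) {T : ℕ → ℕ → Prop}
    (hT : ∀ N : ℕ, ∃ m i : ℕ, N ≤ m ∧ N ≤ i ∧ T m i)
    (h : ∀ (m i : ℕ) (W : 𝒯.Var), T m i → 𝒯.Rational W → 𝒯.dim W = m + i → Injective 𝒯 W m)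
    (V : 𝒯.Var) (k : ℕ) : Injective 𝒯 V k := by
  obtain ⟨c₀, hc⟩ := hF.blowUp V
  obtain ⟨m, i, hm, hi, hmi⟩ := hT (𝒯.dim V + k + c₀ + 1)
  obtain ⟨W, hW, hd, hs⟩ := hc (m + i - 𝒯.dim V) (by omega)
  have h1 := h m i W hmi hW (by omega)
  have h3 := hs k (m - k) (by omega) (by omega)
  rw [Nat.add_sub_cancel' (by omega : k ≤ m)] at h3
  exact injective_of_summand h3 h1

/-- Fixed codimension, any affine varieties. -/
lemma injective_codim (hF : Facts 𝒯) {k M : ℕ}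
    (h : ∀ W : 𝒯.Var, 𝒯.Affine W → M ≤ 𝒯.dim W → Injective 𝒯 W k) (V : 𝒯.Var) :
    Injective 𝒯 V k := by
  obtain ⟨W', hW', -, hs'⟩ := hF.torsor V
  obtain ⟨W'', hd, ha, -, hs''⟩ := hF.line W' M
  exact injective_of_summand (hs' k) (injective_of_summand (hs'' k) (h W'' (ha hW') (by omega)))

/-- **Open varieties.** -/
theorem main (hF : Facts 𝒯) :
    (∀ k M : ℕ, (∀ W : 𝒯.Var, 𝒯.Affine W → M ≤ 𝒯.dim W → Injective 𝒯 W k) →
      ∀ V : 𝒯.Var, Injective 𝒯 V k) ∧
    (∀ k k' M : ℕ, k < k' →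
      (∀ W : 𝒯.Var, 𝒯.Affine W → 𝒯.Rational W → M ≤ 𝒯.dim W → Injective 𝒯 W k') →
      ∀ V : 𝒯.Var, Injective 𝒯 V k) ∧
    (∀ (S : ℕ → Prop) (f : ℕ → ℕ), (∀ N : ℕ, ∃ k : ℕ, N ≤ k ∧ S k) →
      ((∀ (V : 𝒯.Var) (k : ℕ), Injective 𝒯 V k) ↔ ∀ (W : 𝒯.Var) (k : ℕ), S k →
        𝒯.Affine W → 𝒯.Rational W → f k ≤ 𝒯.dim W → Injective 𝒯 W k)) ∧
    (∀ T : ℕ → ℕ → Prop, (∀ N : ℕ, ∃ m i : ℕ, N ≤ m ∧ N ≤ i ∧ T m i) →
      ((∀ (V : 𝒯.Var) (k : ℕ), Injective 𝒯 V k) ↔ ∀ (m i : ℕ) (W : 𝒯.Var), T m i →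
        𝒯.Rational W → 𝒯.dim W = m + i → Injective 𝒯 W m)) := by
  refine ⟨fun k M h V => injective_codim hF h V, fun k k' M hk h V => injective_of_affine hF hk h V,
    fun S f hS => ⟨fun h W k _ _ _ _ => h W k, fun h V k => ?_⟩,
    fun T hT => ⟨fun h m i W _ _ _ => h W m, fun h V k => injective_of_pairs hF hT h V k⟩⟩
  obtain ⟨k', hk', hS'⟩ := hS (k + 1)
  exact injective_of_affine hF (by omega) (fun W ha hr hd => h W k' hS' ha hr hd) V

end Pool.Agent.Run7.H634.OpenAJ
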