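import Pool.Agent.Run7.h634.RV.Ker

/-!
# Abel-Jacobi maps in the codimension above the middle
-/

set_option autoImplicit false

open CategoryTheory AlgebraicGeometry

universe u v w t

namespace Pool.Agent.Run7.H634.RV

open Pool.Agent.H914 Pool.Agent.H914.VarClass Pool.Agent.H914.VarClass.Obj Pool.Agent.W492.BB
  Pool.Agent.W550.Corr Pool.Agent.TH133

set_option linter.unusedSectionVars false

variable {k : Type u} [Field k] {𝒱 : VarClass k} {C : TheoryData.{u, v, 0} 𝒱 ℚ}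
  [hC : IsChowProj C] {K : Type w} [Field K] {H : WeilTheoryData.{u, v, w} C K}
  [hH : IsWeilProj H] {𝓡 : 𝒱.Obj → Prop}

include hC hH

lemma aj_of_lt (𝒥 : AJMaps.{u, v, w, t} H) {X : 𝒱.Obj} {m : ℕ} (hm : X.dim < m) :
    𝒥.Injective X m := by
  intro z hz _ _
  exact hC.gr_top X m z hz (by exact_mod_cast hm)

/-- Any infinite set of codimensions suffices, with `dim X = 2 m - 2`. -/
lemma aj_infinite (𝒥 : AJMaps.{u, v, w, t} H) (h𝓡 : HasBlowUps C 𝓡) (hS : 𝒥.HasSections)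
    {S : ℕ → Prop} (hinf : ∀ N : ℕ, ∃ m : ℕ, N ≤ m ∧ S m) :
    (∀ (X : 𝒱.Obj) (m : ℕ), 𝒥.Injective X m) ↔
      ∀ (X : 𝒱.Obj) (m : ℕ), S m → X.dim + 2 = 2 * m → 𝒥.Injective X m := by
  refine ⟨fun h X m _ _ => h X m, fun h X m => ?_⟩
  by_cases hm : m ≤ X.dim
  · obtain ⟨l, hl, hSl⟩ := hinf (X.dim + 3)
    obtain ⟨i', rfl⟩ : ∃ i', l = i' + 2 := ⟨l - 2, by omega⟩
    exact (aj_main 𝒥 h𝓡).2.2.2.2 hS (X.dim - m) i' (by omega)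
      (fun Y hY => h Y _ hSl (by omega)) X m (by omega)
  · exact aj_of_lt 𝒥 (by omega)

/-- **The codimension above the middle.** -/
theorem aj_above (𝒥 : AJMaps.{u, v, w, t} H) (h𝓡 : HasBlowUps C 𝓡) (hS : 𝒥.HasSections) :
    (∀ i : ℕ, (∀ X : 𝒱.Obj, X.dim = 2 * i + 2 → 𝒥.Injective X (i + 2)) →
      ∀ (X : 𝒱.Obj) (m : ℕ), m + i = X.dim → X.dim + 2 ≤ 2 * m → 𝒥.Injective X m) ∧
    (∀ i i' : ℕ, i < i' → (∀ X : 𝒱.Obj, X.dim = 2 * i' + 2 → 𝒥.Injective X (i' + 2)) →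
      ∀ (X : 𝒱.Obj) (m : ℕ), m + i = X.dim → 𝒥.Injective X m) ∧
    (∀ S : ℕ → Prop, (∀ N : ℕ, ∃ m : ℕ, N ≤ m ∧ S m) →
      ((∀ (X : 𝒱.Obj) (m : ℕ), 𝒥.Injective X m) ↔
        ∀ (X : 𝒱.Obj) (m : ℕ), S m → X.dim + 2 = 2 * m → 𝒥.Injective X m)) ∧
    (∀ i i' M : ℕ, i < i' →
      (∀ (V : 𝒱.Obj) (m : ℕ), 𝓡 V → M ≤ V.dim → m + i' = V.dim → 𝒥.Injective V m) →
      ∀ (X : 𝒱.Obj) (m : ℕ), m + i = X.dim → 𝒥.Injective X m) ∧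
    (∀ T : ℕ → ℕ → Prop, CofinalPairs T → ((∀ (X : 𝒱.Obj) (m : ℕ), 𝒥.Injective X m) ↔
      ∀ m i : ℕ, T m i → ∀ V : 𝒱.Obj, 𝓡 V → V.dim = m + i → 𝒥.Injective V m)) :=
  ⟨(aj_main 𝒥 h𝓡).2.2.2.1 hS, (aj_main 𝒥 h𝓡).2.2.2.2 hS,
    fun _ hinf => aj_infinite 𝒥 h𝓡 hS hinf, (aj_main 𝒥 h𝓡).2.2.1, (aj_main 𝒥 h𝓡).1⟩

end Pool.Agent.Run7.H634.RV
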